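import Mathlib

set_option autoImplicit false

namespace Pool.Agent.Results.MP_da2747_an.SteinerFails

open MeasureTheory Set Filter Topology

/-- The extended plane. -/
abbrev Cbar := OnePoint ℂ

/-- Squared length of the gradient of `u` at `z`. -/
noncomputable def gradSq (u : ℂ → ℝ) (z : ℂ) : ℝ :=
  (fderiv ℝ u z 1) ^ 2 + (fderiv ℝ u z Complex.I) ^ 2

/-- The Dirichlet integral over the finite plane. -/
noncomputable def dirichlet (v : Cbar → ℝ) : ENNReal :=
  ∫⁻ z : ℂ, ENNReal.ofReal (gradSq (fun w : ℂ => v (w : Cbar)) z)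

/-- Admissible functions of the condenser with plates `E k` and potentials `δ k`. -/
def Admissible {n : ℕ} (E : Fin n → Set Cbar) (δ : Fin n → ℝ) (v : Cbar → ℝ) : Prop :=
  Continuous v ∧ LocallyLipschitz (fun z : ℂ => v (z : Cbar)) ∧ ∀ k, ∀ p ∈ E k, v p = δ k

/-- The capacity of a condenser. -/
noncomputable def cap {n : ℕ} (E : Fin n → Set Cbar) (δ : Fin n → ℝ) : ENNReal :=
  ⨅ (v : Cbar → ℝ) (_ : Admissible E δ v), dirichlet v

/-- The heights of the points of `A` on the vertical line `Re z = x`. -/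
def heights (A : Set Cbar) (x : ℝ) : Set ℝ := {y | (((⟨x, y⟩ : ℂ)) : Cbar) ∈ A}

/-- Steiner symmetrization of an open set with respect to the real axis. -/
def StOpen (B : Set Cbar) : Set Cbar :=
  {p | ∃ x y : ℝ, p = ((⟨x, y⟩ : ℂ) : Cbar) ∧ (heights B x).Nonempty ∧
    ENNReal.ofReal (2 * |y|) < volume (heights B x)}

/-- Steiner symmetrization of a closed set with respect to the real axis. -/
def StClosed (E : Set Cbar) : Set Cbar :=
  {p | ∃ x y : ℝ, p = ((⟨x, y⟩ : ℂ) : Cbar) ∧ (heights E x).Nonempty ∧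
    ENNReal.ofReal (2 * |y|) ≤ volume (heights E x)}

/-! ### General facts -/

lemma lintegral_complex {F : ℂ → ENNReal} (hF : Measurable F) :
    ∫⁻ z : ℂ, F z = ∫⁻ y : ℝ, ∫⁻ x : ℝ, F ⟨x, y⟩ := by
  have h := (Complex.volume_preserving_equiv_real_prod.symm
    Complex.measurableEquivRealProd).lintegral_comp hF
  rw [← h]
  have h2 : Measurable (fun p : ℝ × ℝ => F (Complex.measurableEquivRealProd.symm p)) :=
    hF.comp (MeasurableEquiv.measurable _)
  rw [Measure.volume_eq_prod, lintegral_prod_symm _ h2.aemeasurable]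
  rfl

lemma measurable_gradSq (u : ℂ → ℝ) : Measurable (gradSq u) := by
  unfold gradSq
  exact ((measurable_fderiv_apply_const ℝ u 1).pow_const 2).add
    ((measurable_fderiv_apply_const ℝ u Complex.I).pow_const 2)

lemma gradSq_nonneg (u : ℂ → ℝ) (z : ℂ) : 0 ≤ gradSq u z := by
  unfold gradSq; positivity

lemma gradSq_le_norm (u : ℂ → ℝ) (z : ℂ) : gradSq u z ≤ ‖fderiv ℝ u z‖ ^ 2 := by
  set L := fderiv ℝ u z with hL
  have hS : gradSq u z = (L 1) ^ 2 + (L Complex.I) ^ 2 := rfl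
  set S := gradSq u z with hSdef
  have hS0 : 0 ≤ S := gradSq_nonneg u z
  set w : ℂ := ⟨L 1, L Complex.I⟩ with hw
  have hw1 : w = (L 1) • (1 : ℂ) + (L Complex.I) • Complex.I := by
    apply Complex.ext <;> simp [hw]
  have hLw : L w = S := by
    rw [hw1, map_add, map_smul, map_smul, hS]
    simp only [smul_eq_mul]
    ring
  have hnw : ‖w‖ ^ 2 = S := by
    rw [← Complex.normSq_eq_norm_sq, Complex.normSq_apply, hS, hw]
    simp only
    ring
  have h1 : |L w| ≤ ‖L‖ * ‖w‖ := L.le_opNorm w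
  rw [hLw, abs_of_nonneg hS0] at h1
  by_cases h0 : S = 0
  · rw [h0]; positivity
  · have hSpos : 0 < S := lt_of_le_of_ne hS0 (Ne.symm h0)
    have hwpos : 0 < ‖w‖ := by
      by_contra hcon
      have : ‖w‖ = 0 := le_antisymm (not_lt.1 hcon) (norm_nonneg _)
      rw [this] at hnw
      simp at hnw
      exact h0 hnw.symm
    have h2 : ‖w‖ ≤ ‖L‖ := by
      have : ‖w‖ * ‖w‖ ≤ ‖L‖ * ‖w‖ := by
        calc ‖w‖ * ‖w‖ = S := by rw [← hnw]; ring
          _ ≤ _ := h1
      exact le_of_mul_le_mul_right this hwpos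
    rw [← hnw]
    gcongr

/-- Rademacher for locally Lipschitz functions. -/
lemma ae_diff {u : ℂ → ℝ} (hu : LocallyLipschitz u) : ∀ᵐ z : ℂ, DifferentiableAt ℝ u z := by
  have h : ∀ n : ℕ, ∀ᵐ z : ℂ, z ∈ Metric.ball (0 : ℂ) n → DifferentiableAt ℝ u z := by
    intro n
    obtain ⟨K, hK⟩ := LocallyLipschitzOn.exists_lipschitzOnWith_of_compact
      (isCompact_closedBall (0 : ℂ) n) (hu.locallyLipschitzOn (s := Metric.closedBall (0:ℂ) n))
    filter_upwards [hK.ae_differentiableWithinAt_of_mem (μ := volume)] with z hz hzn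
    exact (hz (Metric.ball_subset_closedBall hzn)).differentiableAt
      (mem_of_superset (Metric.isOpen_ball.mem_nhds hzn) Metric.ball_subset_closedBall)
  filter_upwards [ae_all_iff.2 h] with z hz
  obtain ⟨n, hn⟩ := exists_nat_gt ‖z‖
  exact hz n (by simpa using hn)

lemma ae_ae_diff {u : ℂ → ℝ} (hu : LocallyLipschitz u) :
    ∀ᵐ y : ℝ, ∀ᵐ x : ℝ, DifferentiableAt ℝ u ⟨x, y⟩ := by
  have h1 : ∀ᵐ p : ℝ × ℝ, DifferentiableAt ℝ u (Complex.measurableEquivRealProd.symm p) :=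
    (Complex.volume_preserving_equiv_real_prod.symm
      Complex.measurableEquivRealProd).quasiMeasurePreserving.ae (ae_diff hu)
  have h2 : ∀ᵐ p : ℝ × ℝ ∂((volume : Measure ℝ).prod (volume : Measure ℝ)),
      DifferentiableAt ℝ u (Complex.measurableEquivRealProd.symm p.swap) := by
    have h3 : MeasurePreserving (Prod.swap : ℝ × ℝ → ℝ × ℝ)
        ((volume : Measure ℝ).prod volume) ((volume : Measure ℝ).prod volume) :=
      Measure.measurePreserving_swap
    exact h3.quasiMeasurePreserving.ae h1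
  exact Measure.ae_ae_of_ae_prod h2

lemma ofReal_integral_le {f : ℝ → ℝ} {μ : Measure ℝ} (hf : Integrable f μ) :
    ENNReal.ofReal (∫ x, f x ∂μ) ≤ ∫⁻ x, ENNReal.ofReal (f x) ∂μ := by
  rw [integral_eq_lintegral_pos_part_sub_lintegral_neg_part hf]
  refine le_trans (ENNReal.ofReal_le_ofReal (sub_le_self _ ENNReal.toReal_nonneg)) ?_
  exact ENNReal.ofReal_toReal_le

lemma line_bound {u : ℂ → ℝ} (hu : LocallyLipschitz u) {y : ℝ}
    (hy : ∀ᵐ x : ℝ, DifferentiableAt ℝ u ⟨x, y⟩) {a b : ℝ} (hab : a < b) :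
    ENNReal.ofReal ((u ⟨b, y⟩ - u ⟨a, y⟩) ^ 2 / (b - a)) ≤
      ∫⁻ x in Ioo a b, ENNReal.ofReal (gradSq u ⟨x, y⟩) := by
  set c : ℝ → ℂ := fun x => ⟨x, y⟩ with hc
  have hceq : c = fun x : ℝ => (x : ℂ) + ⟨0, y⟩ := by
    ext x
    apply Complex.ext <;> simp [hc]
  have hcd : ∀ x, HasDerivAt c 1 x := by
    intro x
    rw [hceq]
    exact (Complex.ofRealCLM.hasDerivAt (x := x)).add_const _
  have hcc : Continuous c := continuous_iff_continuousAt.2 fun x => (hcd x).continuousAt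
  set g : ℝ → ℝ := fun x => u (c x) with hg
  obtain ⟨K, hK⟩ := LocallyLipschitzOn.exists_lipschitzOnWith_of_compact
      ((isCompact_Icc (a := a) (b := b)).image hcc)
      (hu.locallyLipschitzOn (s := c '' Icc a b))
  have hgL : LipschitzOnWith K g (uIcc a b) := by
    rw [uIcc_of_le hab.le]
    have hc1 : LipschitzWith 1 c := by
      apply LipschitzWith.of_dist_le_mul
      intro x x'
      rw [hceq]
      simp [Complex.dist_eq, Real.dist_eq]
      rw [← Complex.ofReal_sub, Complex.norm_real, Real.norm_eq_abs]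
    have := hK.comp (hc1.lipschitzOnWith (s := Icc a b)) (mapsTo_image c (Icc a b))
    rw [mul_one] at this
    exact this
  have hac := hgL.absolutelyContinuousOnInterval
  have hftc := hac.integral_deriv_eq_sub
  have hint := hac.intervalIntegrable_deriv
  have hba : 0 < b - a := sub_pos.2 hab
  set s : ℝ := (g b - g a) / (b - a) with hs
  have hint' : IntegrableOn (deriv g) (Ioo a b) := by
    rw [intervalIntegrable_iff_integrableOn_Ioo_of_le hab.le] at hint
    exact hint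
  have hI : ∫ x in Ioo a b, (2 * s * deriv g x - s ^ 2) = (g b - g a) ^ 2 / (b - a) := by
    rw [integral_sub (hint'.const_mul _) (by simp), integral_const_mul,
      ← integral_Ioc_eq_integral_Ioo, ← intervalIntegral.integral_of_le hab.le, hftc]
    simp only [MeasureTheory.integral_const, MeasurableSet.univ, measureReal_restrict_apply,
      univ_inter, Real.volume_real_Ioo_of_le hab.le, smul_eq_mul]
    rw [hs]
    field_simp
    ring
  rw [← show g b = u ⟨b, y⟩ from rfl, ← show g a = u ⟨a, y⟩ from rfl, ← hI]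
  refine le_trans (ofReal_integral_le ((hint'.const_mul _).sub (by simp))) ?_
  apply lintegral_mono_ae
  filter_upwards [ae_restrict_of_ae hy] with x hx
  apply ENNReal.ofReal_le_ofReal
  have hder : HasDerivAt g (fderiv ℝ u (c x) 1) x := hx.hasFDerivAt.comp_hasDerivAt x (hcd x)
  rw [hder.deriv]
  unfold gradSq
  have : (fderiv ℝ u (c x)) 1 = (fderiv ℝ u ⟨x, y⟩) 1 := rfl
  rw [this]
  nlinarith [sq_nonneg ((fderiv ℝ u ⟨x, y⟩) 1 - s), sq_nonneg ((fderiv ℝ u ⟨x, y⟩) Complex.I)]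

/-- Lower bound used for the symmetrized condenser. -/
lemma lower_bound {v : Cbar → ℝ} {B : ℝ} (hB : 0 < B)
    (hLip : LocallyLipschitz (fun z : ℂ => v (z : Cbar)))
    (h1 : ∀ y : ℝ, |y| ≤ B → v ((⟨-1, y⟩ : ℂ) : Cbar) = 1)
    (h2 : ∀ y : ℝ, |y| ≤ B → v ((⟨1, y⟩ : ℂ) : Cbar) = -1)
    (h3 : ∀ y : ℝ, v ((⟨-2, y⟩ : ℂ) : Cbar) = 0)
    (h4 : ∀ y : ℝ, v ((⟨2, y⟩ : ℂ) : Cbar) = 0)
    (h5 : ∀ y : ℝ, B / 2 ≤ |y| → v ((⟨0, y⟩ : ℂ) : Cbar) = 0)
    (h6 : ∀ y : ℝ, B / 2 ≤ |y| → v ((⟨1 / 2, y⟩ : ℂ) : Cbar) = 0) :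
    ENNReal.ofReal (9 * B) ≤ dirichlet v := by
  set u : ℂ → ℝ := fun z => v (z : Cbar) with hu
  have hmeas : Measurable (fun z : ℂ => ENNReal.ofReal (gradSq u z)) :=
    (measurable_gradSq u).ennreal_ofReal
  have hD : dirichlet v = ∫⁻ y : ℝ, ∫⁻ x : ℝ, ENNReal.ofReal (gradSq u ⟨x, y⟩) :=
    lintegral_complex hmeas
  have hslice : ∀ y : ℝ, Measurable (fun x : ℝ => ENNReal.ofReal (gradSq u ⟨x, y⟩)) := by
    intro y
    have hcc : Measurable (fun x : ℝ => (⟨x, y⟩ : ℂ)) := by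
      have : (fun x : ℝ => (⟨x, y⟩ : ℂ)) = fun x : ℝ => (x : ℂ) + ⟨0, y⟩ := by
        ext x
        apply Complex.ext <;> simp
      rw [this]
      exact (Complex.measurable_ofReal).add_const _
    exact hmeas.comp hcc
  -- pointwise lower bound
  set G : ℝ → ENNReal := fun y => (Ioo (-(B / 2)) (B / 2)).indicator (fun _ => ENNReal.ofReal 4) y
    + ((Ioo (B / 2) B).indicator (fun _ => ENNReal.ofReal 5) y
    + (Ioo (-B) (-(B / 2))).indicator (fun _ => ENNReal.ofReal 5) y) with hG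
  have hGle : ∀ᵐ y : ℝ, G y ≤ ∫⁻ x : ℝ, ENNReal.ofReal (gradSq u ⟨x, y⟩) := by
    filter_upwards [ae_ae_diff hLip] with y hy
    have key : ∀ a b : ℝ, a < b → ENNReal.ofReal ((u ⟨b, y⟩ - u ⟨a, y⟩) ^ 2 / (b - a)) ≤
      ∫⁻ x in Ioo a b, ENNReal.ofReal (gradSq u ⟨x, y⟩) := fun a b hab => line_bound hLip hy hab
    have hA : |y| ≤ B → ENNReal.ofReal 4 ≤ ∫⁻ x : ℝ, ENNReal.ofReal (gradSq u ⟨x, y⟩) := by
      intro hyB
      have k1 := key (-2) (-1) (by norm_num)
      have k2 := key (-1) 1 (by norm_num)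
      have k3 := key 1 2 (by norm_num)
      rw [show u ⟨-1, y⟩ = 1 from h1 y hyB, show u ⟨-2, y⟩ = 0 from h3 y] at k1
      rw [show u ⟨-1, y⟩ = 1 from h1 y hyB, show u ⟨1, y⟩ = -1 from h2 y hyB] at k2
      rw [show u ⟨1, y⟩ = -1 from h2 y hyB, show u ⟨2, y⟩ = 0 from h4 y] at k3
      have hd1 : Disjoint (Ioo (-2:ℝ) (-1)) (Ioo (-1:ℝ) 1 ∪ Ioo (1:ℝ) 2) := by
        rw [Set.disjoint_left]
        rintro x ⟨_, hx⟩ (⟨hx', _⟩ | ⟨hx', _⟩) <;> linarith
      have hd2 : Disjoint (Ioo (-1:ℝ) 1) (Ioo (1:ℝ) 2) := by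
        rw [Set.disjoint_left]
        rintro x ⟨_, hx⟩ ⟨hx', _⟩; linarith
      calc ENNReal.ofReal 4 = ENNReal.ofReal ((1 - 0) ^ 2 / (-1 - -2)) +
            (ENNReal.ofReal ((-1 - 1) ^ 2 / (1 - -1)) + ENNReal.ofReal ((0 - -1) ^ 2 / (2 - 1))) := by
            rw [← ENNReal.ofReal_add (by norm_num) (by norm_num),
              ← ENNReal.ofReal_add (by norm_num) (by norm_num)]
            norm_num
        _ ≤ (∫⁻ x in Ioo (-2:ℝ) (-1), ENNReal.ofReal (gradSq u ⟨x, y⟩)) +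
            ((∫⁻ x in Ioo (-1:ℝ) 1, ENNReal.ofReal (gradSq u ⟨x, y⟩)) +
            (∫⁻ x in Ioo (1:ℝ) 2, ENNReal.ofReal (gradSq u ⟨x, y⟩))) := by gcongr
        _ = ∫⁻ x in (Ioo (-2:ℝ) (-1) ∪ (Ioo (-1:ℝ) 1 ∪ Ioo (1:ℝ) 2)),
              ENNReal.ofReal (gradSq u ⟨x, y⟩) := by
            rw [lintegral_union (measurableSet_Ioo.union measurableSet_Ioo) hd1,
              lintegral_union measurableSet_Ioo hd2]
        _ ≤ _ := setLIntegral_le_lintegral _ _
    have hBB : B / 2 ≤ |y| → |y| ≤ B →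
        ENNReal.ofReal 5 ≤ ∫⁻ x : ℝ, ENNReal.ofReal (gradSq u ⟨x, y⟩) := by
      intro hy2 hyB
      have k1 := key (-2) (-1) (by norm_num)
      have k2 := key (-1) 0 (by norm_num)
      have k3 := key (1/2) 1 (by norm_num)
      have k4 := key 1 2 (by norm_num)
      rw [show u ⟨-1, y⟩ = 1 from h1 y hyB, show u ⟨-2, y⟩ = 0 from h3 y] at k1
      rw [show u ⟨-1, y⟩ = 1 from h1 y hyB, show u ⟨0, y⟩ = 0 from h5 y hy2] at k2
      rw [show u ⟨1, y⟩ = -1 from h2 y hyB, show u ⟨1/2, y⟩ = 0 from h6 y hy2] at k3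
      rw [show u ⟨1, y⟩ = -1 from h2 y hyB, show u ⟨2, y⟩ = 0 from h4 y] at k4
      have hd1 : Disjoint (Ioo (-2:ℝ) (-1)) (Ioo (-1:ℝ) 0 ∪ (Ioo (1/2:ℝ) 1 ∪ Ioo (1:ℝ) 2)) := by
        rw [Set.disjoint_left]
        rintro x ⟨_, hx⟩ (⟨hx', _⟩ | ⟨hx', _⟩ | ⟨hx', _⟩) <;> linarith
      have hd2 : Disjoint (Ioo (-1:ℝ) 0) (Ioo (1/2:ℝ) 1 ∪ Ioo (1:ℝ) 2) := by
        rw [Set.disjoint_left]
        rintro x ⟨_, hx⟩ (⟨hx', _⟩ | ⟨hx', _⟩) <;> linarith
      have hd3 : Disjoint (Ioo (1/2:ℝ) 1) (Ioo (1:ℝ) 2) := by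
        rw [Set.disjoint_left]
        rintro x ⟨_, hx⟩ ⟨hx', _⟩; linarith
      calc ENNReal.ofReal 5 = ENNReal.ofReal ((1 - 0) ^ 2 / (-1 - -2)) +
            (ENNReal.ofReal ((0 - 1) ^ 2 / (0 - -1)) + (ENNReal.ofReal ((-1 - 0) ^ 2 / (1 - 1/2))
              + ENNReal.ofReal ((0 - -1) ^ 2 / (2 - 1)))) := by
            rw [← ENNReal.ofReal_add (by norm_num) (by norm_num),
              ← ENNReal.ofReal_add (by norm_num) (by norm_num),
              ← ENNReal.ofReal_add (by norm_num) (by norm_num)]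
            norm_num
        _ ≤ (∫⁻ x in Ioo (-2:ℝ) (-1), ENNReal.ofReal (gradSq u ⟨x, y⟩)) +
            ((∫⁻ x in Ioo (-1:ℝ) 0, ENNReal.ofReal (gradSq u ⟨x, y⟩)) +
            ((∫⁻ x in Ioo (1/2:ℝ) 1, ENNReal.ofReal (gradSq u ⟨x, y⟩)) +
            (∫⁻ x in Ioo (1:ℝ) 2, ENNReal.ofReal (gradSq u ⟨x, y⟩)))) := by gcongr
        _ = ∫⁻ x in (Ioo (-2:ℝ) (-1) ∪ (Ioo (-1:ℝ) 0 ∪ (Ioo (1/2:ℝ) 1 ∪ Ioo (1:ℝ) 2))),
              ENNReal.ofReal (gradSq u ⟨x, y⟩) := by
            rw [lintegral_union (measurableSet_Ioo.union (measurableSet_Ioo.union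
              measurableSet_Ioo)) hd1, lintegral_union (measurableSet_Ioo.union
              measurableSet_Ioo) hd2, lintegral_union measurableSet_Ioo hd3]
        _ ≤ _ := setLIntegral_le_lintegral _ _
    simp only [hG]
    by_cases c1 : y ∈ Ioo (-(B / 2)) (B / 2)
    · have c2 : y ∉ Ioo (B / 2) B := fun h => by linarith [h.1, c1.2]
      have c3 : y ∉ Ioo (-B) (-(B / 2)) := fun h => by linarith [h.2, c1.1]
      rw [indicator_of_mem c1, indicator_of_notMem c2, indicator_of_notMem c3, add_zero, add_zero]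
      apply hA
      rw [abs_le]
      constructor <;> linarith [c1.1, c1.2]
    · by_cases c2 : y ∈ Ioo (B / 2) B
      · have c3 : y ∉ Ioo (-B) (-(B / 2)) := fun h => by linarith [h.2, c2.1]
        rw [indicator_of_notMem c1, indicator_of_mem c2, indicator_of_notMem c3, add_zero, zero_add]
        apply hBB
        · rw [abs_of_pos (by linarith [c2.1])]; exact c2.1.le
        · rw [abs_of_pos (by linarith [c2.1])]; exact c2.2.le
      · by_cases c3 : y ∈ Ioo (-B) (-(B / 2))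
        · rw [indicator_of_notMem c1, indicator_of_notMem c2, indicator_of_mem c3, zero_add,
            zero_add]
          apply hBB
          · rw [abs_of_neg (by linarith [c3.2])]; linarith [c3.2]
          · rw [abs_of_neg (by linarith [c3.2])]; linarith [c3.1]
        · rw [indicator_of_notMem c1, indicator_of_notMem c2, indicator_of_notMem c3]
          simp
  rw [hD]
  refine le_trans ?_ (lintegral_mono_ae hGle)
  simp only [hG]
  rw [lintegral_add_left (measurable_const.indicator measurableSet_Ioo),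
    lintegral_add_left (measurable_const.indicator measurableSet_Ioo),
    lintegral_indicator_const measurableSet_Ioo, lintegral_indicator_const measurableSet_Ioo,
    lintegral_indicator_const measurableSet_Ioo, Real.volume_Ioo, Real.volume_Ioo, Real.volume_Ioo,
    ← ENNReal.ofReal_mul (by norm_num), ← ENNReal.ofReal_mul (by norm_num),
    ← ENNReal.ofReal_mul (by norm_num), ← ENNReal.ofReal_add (by linarith) (by linarith),
    ← ENNReal.ofReal_add (by linarith) (by linarith)]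
  apply ENNReal.ofReal_le_ofReal
  linarith

/-! ### Test functions -/

/-- Extension by zero at infinity of a function of two real variables. -/
noncomputable def ext0 (f : ℝ → ℝ → ℝ) : Cbar → ℝ := fun p => OnePoint.elim p 0 (fun z : ℂ => f z.re z.im)

lemma ext0_coe (f : ℝ → ℝ → ℝ) (z : ℂ) : ext0 f (z : Cbar) = f z.re z.im := rfl

lemma ext0_infty (f : ℝ → ℝ → ℝ) : ext0 f OnePoint.infty = 0 := rfl

lemma ext0_lip {f : ℝ → ℝ → ℝ} {K : NNReal}
    (hK : ∀ x y x' y', |f x y - f x' y'| ≤ K * (|x - x'| + |y - y'|)) :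
    LipschitzWith (2 * K) (fun z : ℂ => ext0 f (z : Cbar)) := by
  apply LipschitzWith.of_dist_le_mul
  intro z w
  rw [Real.dist_eq, ext0_coe, ext0_coe]
  refine (hK _ _ _ _).trans ?_
  have h1 : |z.re - w.re| ≤ dist z w := by
    rw [Complex.dist_eq, ← Complex.sub_re]; exact Complex.abs_re_le_norm _
  have h2 : |z.im - w.im| ≤ dist z w := by
    rw [Complex.dist_eq, ← Complex.sub_im]; exact Complex.abs_im_le_norm _
  have : (K : ℝ) * (|z.re - w.re| + |z.im - w.im|) ≤ K * (dist z w + dist z w) := by gcongr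
  refine this.trans (le_of_eq ?_)
  push_cast
  ring

lemma ext0_cont {f : ℝ → ℝ → ℝ} {K : NNReal}
    (hK : ∀ x y x' y', |f x y - f x' y'| ≤ K * (|x - x'| + |y - y'|)) {R : ℝ}
    (hR : ∀ x y, (R ≤ |x| ∨ R ≤ |y|) → f x y = 0) : Continuous (ext0 f) := by
  rw [OnePoint.continuous_iff]
  refine ⟨?_, (ext0_lip hK).continuous⟩
  rw [coclosedCompact_eq_cocompact, ext0_infty]
  have : HasCompactSupport (fun z : ℂ => ext0 f (z : Cbar)) := by
    apply HasCompactSupport.intro (isCompact_closedBall (0 : ℂ) (2 * |R|))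
    intro z hz
    rw [ext0_coe]
    apply hR
    by_contra hcon
    rw [not_or, not_le, not_le] at hcon
    apply hz
    rw [mem_closedBall_zero_iff]
    have := Complex.norm_le_abs_re_add_abs_im z
    have h3 := le_abs_self R
    linarith [hcon.1, hcon.2]
  exact this.is_zero_at_infty

lemma gradSq_lip {F : ℂ → ℝ} {K : NNReal} (hF : LipschitzWith K F) (z : ℂ) :
    gradSq F z ≤ (K : ℝ) ^ 2 := by
  refine (gradSq_le_norm F z).trans ?_
  have := norm_fderiv_le_of_lipschitz ℝ hF (x₀ := z)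
  gcongr

lemma gradSq_affine {F : ℂ → ℝ} {U : Set ℂ} (hU : IsOpen U) {z : ℂ} (hz : z ∈ U) {a b : ℝ}
    (h : ∀ w ∈ U, F w = a * w.re + b) : gradSq F z = a ^ 2 := by
  have h1 : F =ᶠ[𝓝 z] fun w => a * w.re + b :=
    Filter.eventuallyEq_of_mem (hU.mem_nhds hz) h
  have h2 : HasFDerivAt (fun w : ℂ => a * w.re + b) (a • Complex.reCLM) z := by
    have h3 : HasFDerivAt (fun w : ℂ => w.re) Complex.reCLM z := Complex.reCLM.hasFDerivAt
    exact (h3.const_mul a).add_const b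
  unfold gradSq
  rw [h1.fderiv_eq, h2.fderiv]
  simp

/-- Trapezoid equal to one on `[1, B-1]` and zero outside `[0, B]`. -/
noncomputable def al (B y : ℝ) : ℝ := ((|y| - |y - 1|) - (|y - (B - 1)| - |y - B|)) / 2

/-- Trapezoid equal to one on `[-B, B]` and zero outside `[-(B+1), B+1]`. -/
noncomputable def ch (B y : ℝ) : ℝ :=
  ((|y + (B + 1)| - |y + B|) - (|y - B| - |y - (B + 1)|)) / 2

noncomputable def Pu (x : ℝ) : ℝ :=
  ((|x + 2| - |x + 1|) - 2 / 3 * (|x + 1| - |x - 1 / 2|) - 2 * (|x - 1 / 2| - |x - 1|)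
    + (|x - 1| - |x - 2|)) / 2

noncomputable def Pl (x : ℝ) : ℝ :=
  ((|x + 2| - |x + 1|) - (|x + 1| - |x - 1|) + (|x - 1| - |x - 2|)) / 2

noncomputable def Pb (x : ℝ) : ℝ :=
  ((|x + 2| - |x + 1|) - (|x + 1| - |x|) - 2 * (|x - 1 / 2| - |x - 1|)
    + (|x - 1| - |x - 2|)) / 2

lemma al_bd (B y : ℝ) : |al B y| ≤ 1 := by unfold al; grind
lemma ch_bd (B y : ℝ) : |ch B y| ≤ 1 := by unfold ch; grind
lemma Pu_bd (x : ℝ) : |Pu x| ≤ 2 := by unfold Pu; grind
lemma Pl_bd (x : ℝ) : |Pl x| ≤ 2 := by unfold Pl; grind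
lemma Pb_bd (x : ℝ) : |Pb x| ≤ 2 := by unfold Pb; grind

lemma ramp_lip (a x x' : ℝ) : |(|x - a|) - (|x' - a|)| ≤ |x - x'| := by
  have := abs_abs_sub_abs_le (x - a) (x' - a)
  simpa using this

lemma al_lip (B y y' : ℝ) : |al B y - al B y'| ≤ 2 * |y - y'| := by
  have h1 := abs_le.1 (ramp_lip 0 y y')
  have h2 := abs_le.1 (ramp_lip 1 y y')
  have h3 := abs_le.1 (ramp_lip (B - 1) y y')
  have h4 := abs_le.1 (ramp_lip B y y')
  simp only [sub_zero] at h1
  unfold al
  rw [abs_le]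
  constructor <;> linarith [h1.1, h1.2, h2.1, h2.2, h3.1, h3.2, h4.1, h4.2]

lemma ch_lip (B y y' : ℝ) : |ch B y - ch B y'| ≤ 2 * |y - y'| := by
  have h1 := abs_le.1 (ramp_lip (-(B + 1)) y y')
  have h2 := abs_le.1 (ramp_lip (-B) y y')
  have h3 := abs_le.1 (ramp_lip (B + 1) y y')
  have h4 := abs_le.1 (ramp_lip B y y')
  simp only [sub_neg_eq_add] at h1 h2
  unfold ch
  rw [abs_le]
  constructor <;> linarith [h1.1, h1.2, h2.1, h2.2, h3.1, h3.2, h4.1, h4.2]

lemma P_lips (x x' : ℝ) : |Pu x - Pu x'| ≤ 5 * |x - x'| ∧ |Pl x - Pl x'| ≤ 5 * |x - x'| ∧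
    |Pb x - Pb x'| ≤ 5 * |x - x'| := by
  have h1 := abs_le.1 (ramp_lip (-2) x x')
  have h2 := abs_le.1 (ramp_lip (-1) x x')
  have h3 := abs_le.1 (ramp_lip (1/2) x x')
  have h4 := abs_le.1 (ramp_lip 1 x x')
  have h5 := abs_le.1 (ramp_lip 2 x x')
  have h6 := abs_le.1 (ramp_lip 0 x x')
  simp only [sub_neg_eq_add, sub_zero] at h1 h2 h6
  unfold Pu Pl Pb
  refine ⟨?_, ?_, ?_⟩ <;> rw [abs_le] <;> constructor <;>
    linarith [h1.1, h1.2, h2.1, h2.2, h3.1, h3.2, h4.1, h4.2, h5.1, h5.2, h6.1, h6.2]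

/-- The test function of the original condenser. -/
noncomputable def tf (B x y : ℝ) : ℝ :=
  al B y * Pu x + al B (-y) * Pl x + (ch B y - al B y - al B (-y)) * Pb x

/-- A function admissible for both condensers. -/
noncomputable def tg (B x y : ℝ) : ℝ := ch B y * Pb x

lemma mul_lip {a a' b b' A B' C D : ℝ} (h1 : |a| ≤ A) (h2 : |b'| ≤ B') (h3 : |a - a'| ≤ C)
    (h4 : |b - b'| ≤ D) (hA : 0 ≤ A) (hB : 0 ≤ B') :
    |a * b - a' * b'| ≤ A * D + B' * C := by
  have : a * b - a' * b' = a * (b - b') + b' * (a - a') := by ring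
  rw [this]
  refine (abs_add_le _ _).trans ?_
  rw [abs_mul, abs_mul]
  have := abs_nonneg (b - b')
  have := abs_nonneg (a - a')
  gcongr

lemma tf_lip (B x y x' y' : ℝ) : |tf B x y - tf B x' y'| ≤
    (100 : NNReal) * (|x - x'| + |y - y'|) := by
  obtain ⟨p1, p2, p3⟩ := P_lips x x'
  have a1 := al_lip B y y'
  have a2 := al_lip B (-y) (-y')
  have a3 := ch_lip B y y'
  have e : |-y - -y'| = |y - y'| := by rw [← abs_neg]; congr 1; ring
  rw [e] at a2
  have b1 := al_bd B y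
  have b2 := al_bd B (-y)
  have b3 := ch_bd B y
  have m1 := mul_lip b1 (Pu_bd x') a1 p1 (by norm_num) (by norm_num)
  have m2 := mul_lip b2 (Pl_bd x') a2 p2 (by norm_num) (by norm_num)
  have b4 : |ch B y - al B y - al B (-y)| ≤ 3 := by grind
  have a4 : |(ch B y - al B y - al B (-y)) - (ch B y' - al B y' - al B (-y'))| ≤ 6 * |y - y'| := by
    grind
  have m3 := mul_lip b4 (Pb_bd x') a4 p3 (by norm_num) (by norm_num)
  have hx := abs_nonneg (x - x')
  have hy := abs_nonneg (y - y')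
  unfold tf
  rw [abs_le] at m1 m2 m3 ⊢
  push_cast
  constructor <;> linarith [m1.1, m1.2, m2.1, m2.2, m3.1, m3.2]

lemma tg_lip (B x y x' y' : ℝ) : |tg B x y - tg B x' y'| ≤
    (100 : NNReal) * (|x - x'| + |y - y'|) := by
  obtain ⟨p1, p2, p3⟩ := P_lips x x'
  have a3 := ch_lip B y y'
  have m3 := mul_lip (ch_bd B y) (Pb_bd x') a3 p3 (by norm_num) (by norm_num)
  have hx := abs_nonneg (x - x')
  have hy := abs_nonneg (y - y')
  unfold tg
  rw [abs_le] at m3 ⊢
  push_cast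
  constructor <;> linarith [m3.1, m3.2]

lemma P_out (x : ℝ) (h : 2 ≤ |x|) : Pu x = 0 ∧ Pl x = 0 ∧ Pb x = 0 := by
  unfold Pu Pl Pb
  grind

lemma P_m1 : Pu (-1) = 1 ∧ Pl (-1) = 1 ∧ Pb (-1) = 1 := by
  unfold Pu Pl Pb
  grind

lemma P_1 : Pu 1 = -1 ∧ Pl 1 = -1 ∧ Pb 1 = -1 := by
  unfold Pu Pl Pb
  grind

lemma P_0 : Pl 0 = 0 ∧ Pb 0 = 0 := by
  unfold Pl Pb
  grind

lemma P_h : Pu (1/2) = 0 ∧ Pb (1/2) = 0 := by
  unfold Pu Pb
  grind

lemma al_zero {B y : ℝ} (hB : 2 ≤ B) (h : y ≤ 0 ∨ B ≤ y) : al B y = 0 := by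
  unfold al; grind

lemma al_one {B y : ℝ} (h1 : 1 ≤ y) (h2 : y ≤ B - 1) : al B y = 1 := by
  unfold al; grind

lemma ch_zero {B y : ℝ} (hB : 2 ≤ B) (h : B + 1 ≤ |y|) : ch B y = 0 := by
  unfold ch; grind

lemma ch_one {B y : ℝ} (hB : 2 ≤ B) (h : |y| ≤ B) : ch B y = 1 := by
  unfold ch; grind

lemma lintegral_complex' {F : ℂ → ENNReal} (hF : Measurable F) :
    ∫⁻ z : ℂ, F z = ∫⁻ p : ℝ × ℝ, F ⟨p.1, p.2⟩ := by
  have h := (Complex.volume_preserving_equiv_real_prod.symm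
    Complex.measurableEquivRealProd).lintegral_comp hF
  rw [← h]
  rfl

lemma region_eq {f : ℝ → ℝ → ℝ} {a b c d s t : ℝ}
    (h : ∀ x ∈ Ioo a b, ∀ y ∈ Ioo c d, f x y = s * x + t) {x y : ℝ}
    (hx : x ∈ Ioo a b) (hy : y ∈ Ioo c d) :
    gradSq (fun w : ℂ => ext0 f (w : Cbar)) ⟨x, y⟩ = s ^ 2 := by
  have hU : IsOpen {w : ℂ | w.re ∈ Ioo a b ∧ w.im ∈ Ioo c d} :=
    (isOpen_Ioo.preimage Complex.continuous_re).inter (isOpen_Ioo.preimage Complex.continuous_im)
  exact gradSq_affine hU (z := ⟨x, y⟩) ⟨hx, hy⟩ (b := t) fun w hw => h _ hw.1 _ hw.2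

lemma zero_out {f : ℝ → ℝ → ℝ} {R S : ℝ} (h : ∀ x y, (R ≤ |x| ∨ S ≤ |y|) → f x y = 0) {x y : ℝ}
    (hxy : R < |x| ∨ S < |y|) : gradSq (fun w : ℂ => ext0 f (w : Cbar)) ⟨x, y⟩ = 0 := by
  have hU : IsOpen {w : ℂ | R < |w.re| ∨ S < |w.im|} := by
    have h1 : IsOpen {w : ℂ | R < |w.re|} :=
      isOpen_lt continuous_const (Complex.continuous_re.abs)
    have h2 : IsOpen {w : ℂ | S < |w.im|} :=
      isOpen_lt continuous_const (Complex.continuous_im.abs)
    exact h1.union h2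
  have := gradSq_affine (F := fun w : ℂ => ext0 f (w : Cbar)) hU (z := ⟨x, y⟩) hxy (a := 0) (b := 0)
    (fun w hw => by
      rw [ext0_coe, h _ _ (hw.imp le_of_lt le_of_lt)]; ring)
  simpa using this

lemma tf_out {B : ℝ} (hB : 2 ≤ B) (x y : ℝ) (h : 2 ≤ |x| ∨ B + 1 ≤ |y|) : tf B x y = 0 := by
  unfold tf
  rcases h with h | h
  · obtain ⟨h1, h2, h3⟩ := P_out x h
    rw [h1, h2, h3]; ring
  · rw [ch_zero hB h]
    have h1 : al B y = 0 := al_zero hB (by
      rcases le_abs.1 h with h | h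
      · right; linarith
      · left; linarith)
    have h2 : al B (-y) = 0 := al_zero hB (by
      rcases le_abs.1 h with h | h
      · left; linarith
      · right; linarith)
    rw [h1, h2]; ring

lemma tg_out {B : ℝ} (hB : 2 ≤ B) (x y : ℝ) (h : 2 ≤ |x| ∨ B + 1 ≤ |y|) : tg B x y = 0 := by
  unfold tg
  rcases h with h | h
  · obtain ⟨h1, h2, h3⟩ := P_out x h
    rw [h3]; ring
  · rw [ch_zero hB h]; ring

lemma tf_up {B x y : ℝ} (hB : 4 ≤ B) (h1 : 1 < y) (h2 : y < B - 1) : tf B x y = Pu x := by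
  unfold tf
  rw [al_one h1.le h2.le, al_zero (y := -y) (by linarith) (by left; linarith),
    ch_one (by linarith) (by rw [abs_of_pos (by linarith)]; linarith)]
  ring

lemma tf_low {B x y : ℝ} (hB : 4 ≤ B) (h1 : -(B - 1) < y) (h2 : y < -1) : tf B x y = Pl x := by
  unfold tf
  rw [al_one (y := -y) (by linarith) (by linarith), al_zero (y := y) (by linarith)
    (by left; linarith), ch_one (by linarith) (by rw [abs_of_neg (by linarith)]; linarith)]
  ring

/-- The rectangles used in the energy estimate. -/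
def rect (B : ℝ) : Fin 10 → Set (ℝ × ℝ) :=
  ![Ioo (-2) (-1) ×ˢ Ioo 1 (B - 1), Ioo (-1) (1 / 2) ×ˢ Ioo 1 (B - 1),
    Ioo (1 / 2) 1 ×ˢ Ioo 1 (B - 1), Ioo 1 2 ×ˢ Ioo 1 (B - 1),
    Ioo (-2) (-1) ×ˢ Ioo (-(B - 1)) (-1), Ioo (-1) 1 ×ˢ Ioo (-(B - 1)) (-1),
    Ioo 1 2 ×ˢ Ioo (-(B - 1)) (-1),
    Icc (-2) 2 ×ˢ Icc (-1) 1, Icc (-2) 2 ×ˢ Icc (B - 1) (B + 1),
    Icc (-2) 2 ×ˢ Icc (-(B + 1)) (-(B - 1))]

/-- The corresponding bounds of the squared gradient. -/
noncomputable def bd : Fin 10 → ℝ := ![1, 4 / 9, 4, 1, 1, 1, 1, 40000, 40000, 40000]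

lemma bd_nonneg (i : Fin 10) : 0 ≤ bd i := by
  fin_cases i <;> simp only [bd] <;> norm_num

lemma sum_ten (T : Fin 10 → ENNReal) : ∑ i, T i =
    T 0 + T 1 + T 2 + T 3 + T 4 + T 5 + T 6 + T 7 + T 8 + T 9 := by
  simp only [Fin.sum_univ_succ, Fin.sum_univ_zero, add_zero, ← add_assoc]
  rfl

lemma upper_tf {B : ℝ} (hB : 4 ≤ B) :
    dirichlet (ext0 (tf B)) ≤ ENNReal.ofReal ((14 / 3 + 4) * (B - 2) + 24 * 40000) := by
  set u : ℂ → ℝ := fun z => ext0 (tf B) (z : Cbar) with hu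
  have hLip : LipschitzWith (2 * 100) u := ext0_lip (tf_lip B)
  have hmeas : Measurable (fun z : ℂ => ENNReal.ofReal (gradSq u z)) :=
    (measurable_gradSq u).ennreal_ofReal
  have hD : dirichlet (ext0 (tf B)) = ∫⁻ p : ℝ × ℝ, ENNReal.ofReal (gradSq u ⟨p.1, p.2⟩) :=
    lintegral_complex' hmeas
  have hmr : ∀ i, MeasurableSet (rect B i) := by
    intro i
    fin_cases i <;>
      first
        | exact measurableSet_Ioo.prod measurableSet_Ioo
        | exact measurableSet_Icc.prod measurableSet_Icc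
  have hae : ∀ᵐ p : ℝ × ℝ, p.1 ∉ ({-2, -1, 1/2, 1, 2} : Set ℝ) := by
    have h0 : volume ({-2, -1, 1/2, 1, 2} : Set ℝ) = 0 :=
      (Set.toFinite ({-2, -1, 1/2, 1, 2} : Set ℝ)).measure_zero _
    have h1 : ∀ᵐ x : ℝ, x ∉ ({-2, -1, 1/2, 1, 2} : Set ℝ) := measure_eq_zero_iff_ae_notMem.1 h0
    exact Measure.quasiMeasurePreserving_fst.ae h1
  have hle : ∀ᵐ p : ℝ × ℝ, ENNReal.ofReal (gradSq u ⟨p.1, p.2⟩) ≤
      ∑ i, (rect B i).indicator (fun _ => ENNReal.ofReal (bd i)) p := by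
    filter_upwards [hae] with p hp
    have key : ∀ i, p ∈ rect B i → gradSq u ⟨p.1, p.2⟩ ≤ bd i →
        ENNReal.ofReal (gradSq u ⟨p.1, p.2⟩) ≤
          ∑ i, (rect B i).indicator (fun _ => ENNReal.ofReal (bd i)) p := by
      intro i hi hle
      refine le_trans (ENNReal.ofReal_le_ofReal hle) ?_
      have : ENNReal.ofReal (bd i) = (rect B i).indicator (fun _ => ENNReal.ofReal (bd i)) p := by
        rw [indicator_of_mem hi]
      rw [this]
      exact Finset.single_le_sum (f := fun i => (rect B i).indicator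
        (fun _ => ENNReal.ofReal (bd i)) p) (fun _ _ => zero_le) (Finset.mem_univ i)
    obtain ⟨x, y⟩ := p
    simp only [mem_insert_iff, mem_singleton_iff, not_or] at hp
    obtain ⟨n1, n2, n3, n4, n5⟩ := hp
    simp only at key ⊢
    by_cases hout : 2 < |x| ∨ B + 1 < |y|
    · rw [hu, zero_out (tf_out (by linarith)) hout]
      simp
    rw [not_or, not_lt, not_lt] at hout
    obtain ⟨hx, hy⟩ := hout
    rw [abs_le] at hx hy
    have hgl : gradSq u ⟨x, y⟩ ≤ 40000 := by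
      have := gradSq_lip hLip ⟨x, y⟩
      refine this.trans (le_of_eq ?_)
      push_cast
      norm_num
    have hx1 : -2 < x := lt_of_le_of_ne hx.1 (Ne.symm n1)
    have hx2 : x < 2 := lt_of_le_of_ne hx.2 n5
    by_cases c1 : -1 ≤ y ∧ y ≤ 1
    · exact key 7 ⟨⟨hx.1, hx.2⟩, c1⟩ hgl
    by_cases c2 : B - 1 ≤ y
    · exact key 8 ⟨⟨hx.1, hx.2⟩, ⟨c2, hy.2⟩⟩ hgl
    by_cases c3 : y ≤ -(B - 1)
    · exact key 9 ⟨⟨hx.1, hx.2⟩, ⟨hy.1, c3⟩⟩ hgl
    rw [not_le] at c2 c3
    by_cases c4 : 1 < y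
    · have hyy : y ∈ Ioo 1 (B - 1) := ⟨c4, c2⟩
      rcases lt_or_gt_of_ne n2 with d | d
      · refine key 0 ⟨⟨hx1, d⟩, hyy⟩ (le_of_eq ?_)
        rw [hu, region_eq (s := 1) (t := 2) _ ⟨hx1, d⟩ hyy]
        · simp [bd]
        · intro x hx y hy
          rw [tf_up hB hy.1 hy.2]
          unfold Pu
          grind
      rcases lt_or_gt_of_ne n3 with e | e
      · refine key 1 ⟨⟨d, e⟩, hyy⟩ (le_of_eq ?_)
        rw [hu, region_eq (s := -(2/3)) (t := 1/3) _ ⟨d, e⟩ hyy]
        · simp [bd]; norm_num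
        · intro x hx y hy
          rw [tf_up hB hy.1 hy.2]
          unfold Pu
          grind
      rcases lt_or_gt_of_ne n4 with e' | e'
      · refine key 2 ⟨⟨e, e'⟩, hyy⟩ (le_of_eq ?_)
        rw [hu, region_eq (s := -2) (t := 1) _ ⟨e, e'⟩ hyy]
        · simp [bd]; norm_num
        · intro x hx y hy
          rw [tf_up hB hy.1 hy.2]
          unfold Pu
          grind
      · refine key 3 ⟨⟨e', hx2⟩, hyy⟩ (le_of_eq ?_)
        rw [hu, region_eq (s := 1) (t := -2) _ ⟨e', hx2⟩ hyy]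
        · simp [bd]
        · intro x hx y hy
          rw [tf_up hB hy.1 hy.2]
          unfold Pu
          grind
    · have hyy : y ∈ Ioo (-(B - 1)) (-1) := by
        refine ⟨c3, ?_⟩
        by_contra hcon
        exact c1 ⟨not_lt.1 hcon, not_lt.1 c4⟩
      rcases lt_or_gt_of_ne n2 with d | d
      · refine key 4 ⟨⟨hx1, d⟩, hyy⟩ (le_of_eq ?_)
        rw [hu, region_eq (s := 1) (t := 2) _ ⟨hx1, d⟩ hyy]
        · simp [bd]
        · intro x hx y hy
          rw [tf_low hB hy.1 hy.2]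
          unfold Pl
          grind
      rcases lt_or_gt_of_ne n4 with e' | e'
      · refine key 5 ⟨⟨d, e'⟩, hyy⟩ (le_of_eq ?_)
        rw [hu, region_eq (s := -1) (t := 0) _ ⟨d, e'⟩ hyy]
        · simp [bd]
        · intro x hx y hy
          rw [tf_low hB hy.1 hy.2]
          unfold Pl
          grind
      · refine key 6 ⟨⟨e', hx2⟩, hyy⟩ (le_of_eq ?_)
        rw [hu, region_eq (s := 1) (t := -2) _ ⟨e', hx2⟩ hyy]
        · simp [bd]
        · intro x hx y hy
          rw [tf_low hB hy.1 hy.2]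
          unfold Pl
          grind
  rw [hD]
  refine (lintegral_mono_ae hle).trans ?_
  rw [lintegral_finsetSum _ (fun i _ => measurable_const.indicator (hmr i)),
    Finset.sum_congr rfl (fun i _ => lintegral_indicator_const (hmr i) (ENNReal.ofReal (bd i)))]
  have hv : ∀ a b c d : ℝ, volume (Ioo a b ×ˢ Ioo c d) = ENNReal.ofReal (b - a) *
      ENNReal.ofReal (d - c) := by
    intro a b c d
    rw [Measure.volume_eq_prod, Measure.prod_prod, Real.volume_Ioo, Real.volume_Ioo]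
  have hv' : ∀ a b c d : ℝ, volume (Icc a b ×ˢ Icc c d) = ENNReal.ofReal (b - a) *
      ENNReal.ofReal (d - c) := by
    intro a b c d
    rw [Measure.volume_eq_prod, Measure.prod_prod, Real.volume_Icc, Real.volume_Icc]
  have e0 : ENNReal.ofReal (bd 0) * volume (rect B 0) = ENNReal.ofReal (1 * (B - 2)) := by
    rw [show rect B 0 = Ioo (-2) (-1) ×ˢ Ioo 1 (B - 1) from rfl, hv,
      ← ENNReal.ofReal_mul (by norm_num), ← ENNReal.ofReal_mul (bd_nonneg _)]
    congr 1
    simp only [bd, Matrix.cons_val]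
    ring
  have e1 : ENNReal.ofReal (bd 1) * volume (rect B 1) = ENNReal.ofReal (2/3 * (B - 2)) := by
    rw [show rect B 1 = Ioo (-1) (1 / 2) ×ˢ Ioo 1 (B - 1) from rfl, hv,
      ← ENNReal.ofReal_mul (by norm_num), ← ENNReal.ofReal_mul (bd_nonneg _)]
    congr 1
    simp only [bd, Matrix.cons_val]
    ring
  have e2 : ENNReal.ofReal (bd 2) * volume (rect B 2) = ENNReal.ofReal (2 * (B - 2)) := by
    rw [show rect B 2 = Ioo (1 / 2) 1 ×ˢ Ioo 1 (B - 1) from rfl, hv,
      ← ENNReal.ofReal_mul (by norm_num), ← ENNReal.ofReal_mul (bd_nonneg _)]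
    congr 1
    simp only [bd, Matrix.cons_val]
    ring
  have e3 : ENNReal.ofReal (bd 3) * volume (rect B 3) = ENNReal.ofReal (1 * (B - 2)) := by
    rw [show rect B 3 = Ioo 1 2 ×ˢ Ioo 1 (B - 1) from rfl, hv,
      ← ENNReal.ofReal_mul (by norm_num), ← ENNReal.ofReal_mul (bd_nonneg _)]
    congr 1
    simp only [bd, Matrix.cons_val]
    ring
  have e4 : ENNReal.ofReal (bd 4) * volume (rect B 4) = ENNReal.ofReal (1 * (B - 2)) := by
    rw [show rect B 4 = Ioo (-2) (-1) ×ˢ Ioo (-(B - 1)) (-1) from rfl, hv,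
      ← ENNReal.ofReal_mul (by norm_num), ← ENNReal.ofReal_mul (bd_nonneg _)]
    congr 1
    simp only [bd, Matrix.cons_val]
    ring
  have e5 : ENNReal.ofReal (bd 5) * volume (rect B 5) = ENNReal.ofReal (2 * (B - 2)) := by
    rw [show rect B 5 = Ioo (-1) 1 ×ˢ Ioo (-(B - 1)) (-1) from rfl, hv,
      ← ENNReal.ofReal_mul (by norm_num), ← ENNReal.ofReal_mul (bd_nonneg _)]
    congr 1
    simp only [bd, Matrix.cons_val]
    ring
  have e6 : ENNReal.ofReal (bd 6) * volume (rect B 6) = ENNReal.ofReal (1 * (B - 2)) := by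
    rw [show rect B 6 = Ioo 1 2 ×ˢ Ioo (-(B - 1)) (-1) from rfl, hv,
      ← ENNReal.ofReal_mul (by norm_num), ← ENNReal.ofReal_mul (bd_nonneg _)]
    congr 1
    simp only [bd, Matrix.cons_val]
    ring
  have e7 : ENNReal.ofReal (bd 7) * volume (rect B 7) = ENNReal.ofReal (8 * 40000) := by
    rw [show rect B 7 = Icc (-2) 2 ×ˢ Icc (-1) 1 from rfl, hv',
      ← ENNReal.ofReal_mul (by norm_num), ← ENNReal.ofReal_mul (bd_nonneg _)]
    congr 1
    simp only [bd, Matrix.cons_val]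
    ring
  have e8 : ENNReal.ofReal (bd 8) * volume (rect B 8) = ENNReal.ofReal (8 * 40000) := by
    rw [show rect B 8 = Icc (-2) 2 ×ˢ Icc (B - 1) (B + 1) from rfl, hv',
      ← ENNReal.ofReal_mul (by norm_num), ← ENNReal.ofReal_mul (bd_nonneg _)]
    congr 1
    simp only [bd, Matrix.cons_val]
    ring
  have e9 : ENNReal.ofReal (bd 9) * volume (rect B 9) = ENNReal.ofReal (8 * 40000) := by
    rw [show rect B 9 = Icc (-2) 2 ×ˢ Icc (-(B + 1)) (-(B - 1)) from rfl, hv',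
      ← ENNReal.ofReal_mul (by norm_num), ← ENNReal.ofReal_mul (bd_nonneg _)]
    congr 1
    simp only [bd, Matrix.cons_val]
    ring
  rw [sum_ten, e0, e1, e2, e3, e4, e5, e6, e7, e8, e9, ← ENNReal.ofReal_add (by linarith) (by linarith),
    ← ENNReal.ofReal_add (by linarith) (by linarith),
    ← ENNReal.ofReal_add (by linarith) (by linarith),
    ← ENNReal.ofReal_add (by linarith) (by linarith),
    ← ENNReal.ofReal_add (by linarith) (by linarith),
    ← ENNReal.ofReal_add (by linarith) (by linarith),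
    ← ENNReal.ofReal_add (by linarith) (by linarith),
    ← ENNReal.ofReal_add (by linarith) (by linarith),
    ← ENNReal.ofReal_add (by linarith) (by linarith)]
  apply ENNReal.ofReal_le_ofReal
  linarith

lemma upper_tg {B : ℝ} (hB : 4 ≤ B) : dirichlet (ext0 (tg B)) < ⊤ := by
  set u : ℂ → ℝ := fun z => ext0 (tg B) (z : Cbar) with hu
  have hLip : LipschitzWith (2 * 100) u := ext0_lip (tg_lip B)
  have hmeas : Measurable (fun z : ℂ => ENNReal.ofReal (gradSq u z)) :=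
    (measurable_gradSq u).ennreal_ofReal
  have hD : dirichlet (ext0 (tg B)) = ∫⁻ p : ℝ × ℝ, ENNReal.ofReal (gradSq u ⟨p.1, p.2⟩) :=
    lintegral_complex' hmeas
  have hle : ∀ p : ℝ × ℝ, ENNReal.ofReal (gradSq u ⟨p.1, p.2⟩) ≤
      (Icc (-2) 2 ×ˢ Icc (-(B + 1)) (B + 1)).indicator (fun _ => ENNReal.ofReal 40000) p := by
    rintro ⟨x, y⟩
    by_cases hp : (x, y) ∈ (Icc (-2) 2 ×ˢ Icc (-(B + 1)) (B + 1) : Set (ℝ × ℝ))
    · rw [indicator_of_mem hp]
      apply ENNReal.ofReal_le_ofReal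
      have := gradSq_lip hLip ⟨x, y⟩
      refine this.trans (le_of_eq ?_)
      push_cast
      norm_num
    · rw [indicator_of_notMem hp]
      have hout : 2 < |x| ∨ B + 1 < |y| := by
        by_contra hcon
        rw [not_or, not_lt, not_lt, abs_le, abs_le] at hcon
        exact hp ⟨hcon.1, hcon.2⟩
      simp only
      rw [hu, zero_out (tg_out (by linarith)) hout]
      simp
  rw [hD]
  refine (lintegral_mono hle).trans_lt ?_
  rw [lintegral_indicator_const (measurableSet_Icc.prod measurableSet_Icc),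
    Measure.volume_eq_prod, Measure.prod_prod, Real.volume_Icc, Real.volume_Icc]
  exact ENNReal.mul_lt_top ENNReal.ofReal_lt_top
    (ENNReal.mul_lt_top ENNReal.ofReal_lt_top ENNReal.ofReal_lt_top)

/-! ### The condenser -/

/-- The plate at level one: a vertical segment. -/
def E1 (B : ℝ) : Set Cbar := (fun z : ℂ => (z : Cbar)) '' {z | z.re = -1 ∧ |z.im| ≤ B}

/-- The plate at level minus one: the mirror segment. -/
def E2 (B : ℝ) : Set Cbar := (fun z : ℂ => (z : Cbar)) '' {z | z.re = 1 ∧ |z.im| ≤ B}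

/-- The open set whose complement is the plate at level zero: a rectangle with two slit walls,
each of which has one window, the two windows being at different heights. -/
def G (B : ℝ) : Set ℂ := {z | |z.re| < 2 ∧ |z.im| < B + 1 ∧ (z.re = 0 → 0 < z.im ∧ z.im < B) ∧
  (z.re = 1 / 2 → -B < z.im ∧ z.im < 0)}

/-- The plate at level zero. -/
def E3 (B : ℝ) : Set Cbar := ((fun z : ℂ => (z : Cbar)) '' G B)ᶜ

lemma isCompact_seg (a B : ℝ) : IsCompact {z : ℂ | z.re = a ∧ |z.im| ≤ B} := by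
  have h : {z : ℂ | z.re = a ∧ |z.im| ≤ B} = Icc a a ×ℂ Icc (-B) B := by
    ext z
    simp only [mem_ofPred_eq, Complex.mem_reProdIm, mem_Icc, abs_le]
    constructor
    · rintro ⟨h1, h2⟩
      exact ⟨⟨h1.ge, h1.le⟩, h2⟩
    · rintro ⟨⟨h1, h2⟩, h3⟩
      exact ⟨le_antisymm h2 h1, h3⟩
  rw [h]
  exact isCompact_Icc.reProdIm isCompact_Icc

lemma isClosed_E1 (B : ℝ) : IsClosed (E1 B) :=
  OnePoint.isClosed_image_coe.2 ⟨(isCompact_seg _ _).isClosed, isCompact_seg _ _⟩

lemma isClosed_E2 (B : ℝ) : IsClosed (E2 B) :=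
  OnePoint.isClosed_image_coe.2 ⟨(isCompact_seg _ _).isClosed, isCompact_seg _ _⟩

lemma isOpen_G (B : ℝ) : IsOpen (G B) := by
  have h1 : IsOpen {z : ℂ | |z.re| < 2} := isOpen_lt Complex.continuous_re.abs continuous_const
  have h2 : IsOpen {z : ℂ | |z.im| < B + 1} := isOpen_lt Complex.continuous_im.abs continuous_const
  have h3 : ∀ a c d : ℝ, IsOpen {z : ℂ | z.re = a → c < z.im ∧ z.im < d} := by
    intro a c d
    have : {z : ℂ | z.re = a → c < z.im ∧ z.im < d} = {z : ℂ | z.re ≠ a} ∪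
        ({z : ℂ | c < z.im} ∩ {z : ℂ | z.im < d}) := by
      ext z
      simp only [mem_ofPred_eq, mem_union, mem_inter_iff]
      tauto
    rw [this]
    exact (isOpen_ne_fun Complex.continuous_re continuous_const).union
      ((isOpen_lt continuous_const Complex.continuous_im).inter
        (isOpen_lt Complex.continuous_im continuous_const))
  have : G B = {z : ℂ | |z.re| < 2} ∩ ({z : ℂ | |z.im| < B + 1} ∩
      ({z : ℂ | z.re = 0 → 0 < z.im ∧ z.im < B} ∩ {z : ℂ | z.re = 1/2 → -B < z.im ∧ z.im < 0})) := by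
    ext z
    simp only [G, mem_ofPred_eq, mem_inter_iff]
  rw [this]
  exact h1.inter (h2.inter ((h3 _ _ _).inter (h3 _ _ _)))

lemma isClosed_E3 (B : ℝ) : IsClosed (E3 B) :=
  (OnePoint.isOpen_image_coe.2 (isOpen_G B)).isClosed_compl

lemma mem_E1 {B x y : ℝ} : ((⟨x, y⟩ : ℂ) : Cbar) ∈ E1 B ↔ x = -1 ∧ |y| ≤ B := by
  unfold E1
  constructor
  · rintro ⟨z, hz, h⟩
    have := OnePoint.coe_injective h
    rw [this] at hz
    exact hz
  · intro h
    exact ⟨⟨x, y⟩, h, rfl⟩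

lemma mem_E2 {B x y : ℝ} : ((⟨x, y⟩ : ℂ) : Cbar) ∈ E2 B ↔ x = 1 ∧ |y| ≤ B := by
  unfold E2
  constructor
  · rintro ⟨z, hz, h⟩
    have := OnePoint.coe_injective h
    rw [this] at hz
    exact hz
  · intro h
    exact ⟨⟨x, y⟩, h, rfl⟩

lemma mem_E3c {B x y : ℝ} : ((⟨x, y⟩ : ℂ) : Cbar) ∈ (E3 B)ᶜ ↔ (⟨x, y⟩ : ℂ) ∈ G B := by
  unfold E3
  rw [compl_compl]
  constructor
  · rintro ⟨z, hz, h⟩
    have := OnePoint.coe_injective h
    rw [this] at hz
    exact hz
  · intro h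
    exact ⟨⟨x, y⟩, h, rfl⟩

lemma heights_E1 (B : ℝ) : heights (E1 B) (-1) = Icc (-B) B := by
  ext y
  simp only [heights, mem_ofPred_eq, mem_E1, true_and, abs_le, mem_Icc]

lemma heights_E2 (B : ℝ) : heights (E2 B) 1 = Icc (-B) B := by
  ext y
  simp only [heights, mem_ofPred_eq, mem_E2, true_and, abs_le, mem_Icc]

lemma heights_out {B x : ℝ} (hx : 2 ≤ |x|) : heights (E3 B)ᶜ x = ∅ := by
  ext y
  simp only [heights, mem_ofPred_eq, mem_E3c, G, mem_empty_iff_false, iff_false]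
  intro h
  linarith [h.1]

lemma heights_zero {B : ℝ} (_hB : 0 < B) : heights (E3 B)ᶜ 0 = Ioo 0 B := by
  ext y
  simp only [heights, mem_ofPred_eq, mem_E3c, G, mem_Ioo]
  constructor
  · rintro ⟨_, _, h, _⟩
    exact h trivial
  · rintro ⟨h1, h2⟩
    refine ⟨by simp, by rw [abs_of_pos h1]; linarith, fun _ => ⟨h1, h2⟩, fun h => by norm_num at h⟩

lemma heights_half {B : ℝ} (_hB : 0 < B) : heights (E3 B)ᶜ (1 / 2) = Ioo (-B) 0 := by
  ext y
  simp only [heights, mem_ofPred_eq, mem_E3c, G, mem_Ioo]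
  constructor
  · rintro ⟨_, _, _, h⟩
    exact h trivial
  · rintro ⟨h1, h2⟩
    refine ⟨by rw [abs_of_pos] <;> norm_num, by rw [abs_of_neg h2]; linarith,
      fun h => by norm_num at h, fun _ => ⟨h1, h2⟩⟩

lemma heights_gen {B x : ℝ} (hx : |x| < 2) (h0 : x ≠ 0) (h1 : x ≠ 1 / 2) :
    heights (E3 B)ᶜ x = Ioo (-(B + 1)) (B + 1) := by
  ext y
  simp only [heights, mem_ofPred_eq, mem_E3c, G, mem_Ioo]
  constructor
  · rintro ⟨_, h, _, _⟩
    exact abs_lt.1 h
  · intro h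
    exact ⟨hx, abs_lt.2 h, fun h' => absurd h' h0, fun h' => absurd h' h1⟩

/-- `tf B` is admissible for the original condenser. -/
lemma adm_tf {B : ℝ} (hB : 4 ≤ B) : Admissible ![E1 B, E2 B, E3 B] ![1, -1, 0] (ext0 (tf B)) := by
  refine ⟨?_, ?_, ?_⟩
  · refine ext0_cont (tf_lip B) (R := B + 1) fun x y h => tf_out (by linarith) x y ?_
    rcases h with h | h
    · left; linarith
    · right; exact h
  · exact (ext0_lip (tf_lip B)).locallyLipschitz
  · intro k p hp
    fin_cases k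
    · obtain ⟨z, ⟨hz1, hz2⟩, rfl⟩ := hp
      change tf B z.re z.im = 1
      rw [hz1]
      unfold tf
      rw [P_m1.1, P_m1.2.1, P_m1.2.2, ch_one (by linarith) hz2]
      ring
    · obtain ⟨z, ⟨hz1, hz2⟩, rfl⟩ := hp
      change tf B z.re z.im = -1
      rw [hz1]
      unfold tf
      rw [P_1.1, P_1.2.1, P_1.2.2, ch_one (by linarith) hz2]
      ring
    · change p ∈ E3 B at hp
      change ext0 (tf B) p = 0
      induction p using OnePoint.rec with
      | infty => rfl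
      | coe z =>
        rw [ext0_coe]
        have hz : z ∉ G B := by
          intro h
          exact hp ⟨z, h, rfl⟩
        by_cases ho : 2 ≤ |z.re| ∨ B + 1 ≤ |z.im|
        · exact tf_out (by linarith) _ _ ho
        · rw [not_or, not_le, not_le] at ho
          have : ¬ ((z.re = 0 → 0 < z.im ∧ z.im < B) ∧ (z.re = 1 / 2 → -B < z.im ∧ z.im < 0)) :=
            fun h => hz ⟨ho.1, ho.2, h.1, h.2⟩
          rw [not_and_or, Classical.not_imp, Classical.not_imp] at this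
          unfold tf
          rcases this with ⟨h1, h2⟩ | ⟨h1, h2⟩
          · rw [h1, P_0.1, P_0.2, al_zero (by linarith) (by
              by_contra hcon
              rw [not_or, not_le, not_le] at hcon
              exact h2 hcon)]
            ring
          · rw [h1, P_h.1, P_h.2, al_zero (y := -z.im) (by linarith) (by
              by_contra hcon
              rw [not_or, not_le, not_le] at hcon
              exact h2 ⟨by linarith [hcon.2], by linarith [hcon.1]⟩)]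
            ring

/-- `tg B` is admissible for the symmetrized condenser. -/
lemma adm_tg {B : ℝ} (hB : 4 ≤ B) :
    Admissible ![StClosed (E1 B), StClosed (E2 B), (StOpen (E3 B)ᶜ)ᶜ] ![1, -1, 0]
      (ext0 (tg B)) := by
  refine ⟨?_, ?_, ?_⟩
  · refine ext0_cont (tg_lip B) (R := B + 1) fun x y h => tg_out (by linarith) x y ?_
    rcases h with h | h
    · left; linarith
    · right; exact h
  · exact (ext0_lip (tg_lip B)).locallyLipschitz
  · intro k p hp
    fin_cases k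
    · obtain ⟨x, y, rfl, ⟨t, ht⟩, hv⟩ := hp
      have hx : x = -1 := (mem_E1.1 ht).1
      subst hx
      rw [heights_E1, Real.volume_Icc] at hv
      have hy : |y| ≤ B := by
        rw [ENNReal.ofReal_le_ofReal_iff (by linarith)] at hv
        linarith
      change tg B (-1) y = 1
      unfold tg
      rw [P_m1.2.2, ch_one (by linarith) hy]
      ring
    · obtain ⟨x, y, rfl, ⟨t, ht⟩, hv⟩ := hp
      have hx : x = 1 := (mem_E2.1 ht).1
      subst hx
      rw [heights_E2, Real.volume_Icc] at hv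
      have hy : |y| ≤ B := by
        rw [ENNReal.ofReal_le_ofReal_iff (by linarith)] at hv
        linarith
      change tg B 1 y = -1
      unfold tg
      rw [P_1.2.2, ch_one (by linarith) hy]
      ring
    · change p ∈ (StOpen (E3 B)ᶜ)ᶜ at hp
      change ext0 (tg B) p = 0
      induction p using OnePoint.rec with
      | infty => rfl
      | coe z =>
        rw [ext0_coe]
        by_cases hx : 2 ≤ |z.re|
        · exact tg_out (by linarith) _ _ (Or.inl hx)
        by_cases h0 : z.re = 0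
        · unfold tg; rw [h0, P_0.2]; ring
        by_cases h1 : z.re = 1 / 2
        · unfold tg; rw [h1, P_h.2]; ring
        apply tg_out (by linarith) _ _ (Or.inr ?_)
        by_contra hcon
        apply hp
        refine ⟨z.re, z.im, rfl, ?_, ?_⟩
        · rw [heights_gen (not_le.1 hx) h0 h1]
          exact ⟨0, by constructor <;> linarith⟩
        · rw [heights_gen (not_le.1 hx) h0 h1, Real.volume_Ioo,
            ENNReal.ofReal_lt_ofReal_iff (by linarith)]
          linarith [not_le.1 hcon]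

/-- **Main theorem.** The Steiner symmetrization inequality for three-plate condensers fails if
the plate at level zero is not assumed symmetric in the imaginary axis. -/
theorem result : ∃ E₁ E₂ E₃ : Set Cbar,
    IsClosed E₁ ∧ IsClosed E₂ ∧ IsClosed E₃ ∧
    Disjoint E₁ E₂ ∧ Disjoint E₁ E₃ ∧ Disjoint E₂ E₃ ∧
    E₁.Nonempty ∧ OnePoint.infty ∈ E₃ ∧
    (∀ p ∈ E₁, ∃ z : ℂ, p = (z : Cbar) ∧ z.re < 0) ∧
    E₂ = {p | ∃ z : ℂ, p = (z : Cbar) ∧ ((-(starRingEnd ℂ) z : ℂ) : Cbar) ∈ E₁} ∧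
    cap ![E₁, E₂, E₃] ![1, -1, 0] <
      cap ![StClosed E₁, StClosed E₂, (StOpen E₃ᶜ)ᶜ] ![1, -1, 0] ∧
    cap ![StClosed E₁, StClosed E₂, (StOpen E₃ᶜ)ᶜ] ![1, -1, 0] < ⊤ := by
  obtain ⟨B, hB⟩ : ∃ B : ℝ, B = 3000000 := ⟨_, rfl⟩
  have hB4 : (4 : ℝ) ≤ B := by rw [hB]; norm_num
  refine ⟨E1 B, E2 B, E3 B, isClosed_E1 B, isClosed_E2 B, isClosed_E3 B, ?_, ?_, ?_, ?_, ?_, ?_,
    ?_, ?_, ?_⟩
  · rw [Set.disjoint_left]
    rintro _ ⟨z, ⟨hz, _⟩, rfl⟩ ⟨w, ⟨hw, _⟩, h⟩
    have := OnePoint.coe_injective h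
    rw [this, hz] at hw
    norm_num at hw
  · rw [Set.disjoint_left]
    rintro _ ⟨z, ⟨hz, hz'⟩, rfl⟩ h
    apply h
    refine ⟨z, ⟨?_, ?_, ?_, ?_⟩, rfl⟩
    · rw [hz]; norm_num
    · linarith
    · intro h'; rw [hz] at h'; norm_num at h'
    · intro h'; rw [hz] at h'; norm_num at h'
  · rw [Set.disjoint_left]
    rintro _ ⟨z, ⟨hz, hz'⟩, rfl⟩ h
    apply h
    refine ⟨z, ⟨?_, ?_, ?_, ?_⟩, rfl⟩
    · rw [hz]; norm_num
    · linarith
    · intro h'; rw [hz] at h'; norm_num at h'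
    · intro h'; rw [hz] at h'; norm_num at h'
  · exact ⟨_, mem_E1.2 ⟨rfl, by rw [abs_zero]; linarith⟩⟩
  · rintro ⟨z, _, h⟩
    exact OnePoint.coe_ne_infty z h
  · rintro _ ⟨z, ⟨hz, _⟩, rfl⟩
    exact ⟨z, rfl, by rw [hz]; norm_num⟩
  · ext p
    constructor
    · rintro ⟨z, ⟨hz, hz'⟩, rfl⟩
      refine ⟨z, rfl, -(starRingEnd ℂ) z, ⟨?_, ?_⟩, rfl⟩
      · simp [hz]
      · simpa using hz'
    · rintro ⟨z, rfl, w, ⟨hw, hw'⟩, h⟩
      have := OnePoint.coe_injective h
      rw [this] at hw hw'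
      refine ⟨z, ⟨?_, ?_⟩, rfl⟩
      · simp at hw; linarith
      · simpa using hw'
  · refine lt_of_le_of_lt (iInf₂_le (ext0 (tf B)) (adm_tf hB4)) ?_
    refine lt_of_le_of_lt (upper_tf hB4) ?_
    refine lt_of_lt_of_le (b := ENNReal.ofReal (9 * B)) ?_ ?_
    · rw [ENNReal.ofReal_lt_ofReal_iff (by linarith)]
      rw [hB]; norm_num
    · refine le_iInf₂ fun v hv => ?_
      obtain ⟨_, hLip, hk⟩ := hv
      have hk0 : ∀ p ∈ StClosed (E1 B), v p = 1 := hk 0
      have hk1 : ∀ p ∈ StClosed (E2 B), v p = -1 := hk 1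
      have hk2 : ∀ p ∈ (StOpen (E3 B)ᶜ)ᶜ, v p = 0 := hk 2
      apply lower_bound (by linarith) hLip
      · intro y hy
        apply hk0
        refine ⟨-1, y, rfl, ⟨0, mem_E1.2 ⟨rfl, by rw [abs_zero]; linarith⟩⟩, ?_⟩
        rw [heights_E1, Real.volume_Icc]
        apply ENNReal.ofReal_le_ofReal
        linarith
      · intro y hy
        apply hk1
        refine ⟨1, y, rfl, ⟨0, mem_E2.2 ⟨rfl, by rw [abs_zero]; linarith⟩⟩, ?_⟩
        rw [heights_E2, Real.volume_Icc]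
        apply ENNReal.ofReal_le_ofReal
        linarith
      · intro y
        apply hk2
        rintro ⟨x', y', h, hne, _⟩
        have := congrArg Complex.re (OnePoint.coe_injective h)
        simp only at this
        rw [← this, heights_out (by norm_num)] at hne
        exact Set.not_nonempty_empty hne
      · intro y
        apply hk2
        rintro ⟨x', y', h, hne, _⟩
        have := congrArg Complex.re (OnePoint.coe_injective h)
        simp only at this
        rw [← this, heights_out (by norm_num)] at hne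
        exact Set.not_nonempty_empty hne
      · intro y hy
        apply hk2
        rintro ⟨x', y', h, hne, hv⟩
        have h1 := congrArg Complex.re (OnePoint.coe_injective h)
        have h2 := congrArg Complex.im (OnePoint.coe_injective h)
        simp only at h1 h2
        rw [← h1, heights_zero (by linarith), Real.volume_Ioo,
          ENNReal.ofReal_lt_ofReal_iff (by linarith), ← h2] at hv
        linarith
      · intro y hy
        apply hk2
        rintro ⟨x', y', h, hne, hv⟩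
        have h1 := congrArg Complex.re (OnePoint.coe_injective h)
        have h2 := congrArg Complex.im (OnePoint.coe_injective h)
        simp only at h1 h2
        rw [← h1, heights_half (by linarith), Real.volume_Ioo,
          ENNReal.ofReal_lt_ofReal_iff (by linarith), ← h2] at hv
        linarith
  · exact lt_of_le_of_lt (iInf₂_le (ext0 (tg B)) (adm_tg hB4)) (upper_tg hB4)

end Pool.Agent.Results.MP_da2747_an.SteinerFails
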